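import Pool.Agent.R676.Cox.Key

/-!
# MP_2f4918_al, Q1: (QP1) implies (QP2) for classes of twisted involutions

For every Coxeter system `(W,S)` (any set `S`, finite or infinite) and every `W`-conjugacy class
`K` of twisted involutions in `W⁺ = W ⋊ Aut(W,S)`: if `K` satisfies (QP1), then `K` satisfies
(QP2); so `K` is quasiparabolic.
-/

set_option autoImplicit false

namespace Pool.Agent.Results.MP_2f4918_al.QPOneImpliesQPTwo

open CoxeterSystem
open Pool.Agent.R676.Cox (IsAutS TwClass qp2)

universe u v

variable {B : Type u} {M : CoxeterMatrix B} {W : Type v} [Group W]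

/-- `Aut(W,S)`: the group of the automorphisms of `W` that map the set `S` of simple reflections
onto itself. -/
def AutS (cs : CoxeterSystem M W) : Subgroup (MulAut W) where
  carrier := {θ | θ '' Set.range cs.simple = Set.range cs.simple}
  one_mem' := by simp
  mul_mem' := by
    intro a b ha hb
    change (⇑(a * b)) '' _ = _
    change (⇑a) '' _ = _ at ha
    change (⇑b) '' _ = _ at hb
    rw [MulAut.coe_mul, Set.image_comp, hb, ha]
  inv_mem' := by
    intro a ha
    exact IsAutS.inv (cs := cs) ha

/-- The extended group `W⁺ = W ⋊ Aut(W,S)`; its elements are pairs `(x, θ)` and the product is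
`(x, α)(y, β) = (x α(y), αβ)`. -/
abbrev WPlus (cs : CoxeterSystem M W) : Type v := W ⋊[(AutS cs).subtype] (AutS cs)

/-- The inclusion of `W` in `W⁺`, sending `x` to `(x, id)`. -/
abbrev emb (cs : CoxeterSystem M W) : W →* WPlus cs := SemidirectProduct.inl

/-- The length on `W⁺`: `ℓ(x, θ) = ℓ(x)`. -/
noncomputable def len (cs : CoxeterSystem M W) (w : WPlus cs) : ℕ := cs.length w.left

/-- `K` is a `W`-conjugacy class contained in `I⁺ = {w ∈ W⁺ : w² = 1}`: the orbit of some
`x₀ ∈ I⁺` under conjugation by `W`. -/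
def IsInvolutionClass (cs : CoxeterSystem M W) (K : Set (WPlus cs)) : Prop :=
  ∃ x₀ : WPlus cs, x₀ ^ 2 = 1 ∧ K = {w | ∃ u : W, w = emb cs u * x₀ * (emb cs u)⁻¹}

/-- Condition (QP1): if `r ∈ R`, `w ∈ K` and `ℓ(rwr) = ℓ(w)`, then `rwr = w`. -/
def QP1 (cs : CoxeterSystem M W) (K : Set (WPlus cs)) : Prop :=
  ∀ r : W, cs.IsReflection r → ∀ w ∈ K,
    len cs (emb cs r * w * emb cs r) = len cs w → emb cs r * w * emb cs r = w

/-- Condition (QP2): if `r ∈ R`, `w ∈ K`, `s ∈ S`, `ℓ(rwr) > ℓ(w)` and `ℓ(srwrs) < ℓ(sws)`, then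
`rwr = sws`. -/
def QP2 (cs : CoxeterSystem M W) (K : Set (WPlus cs)) : Prop :=
  ∀ r : W, cs.IsReflection r → ∀ w ∈ K, ∀ s ∈ Set.range cs.simple,
    len cs w < len cs (emb cs r * w * emb cs r) →
    len cs (emb cs s * emb cs r * w * emb cs r * emb cs s) < len cs (emb cs s * w * emb cs s) →
    emb cs r * w * emb cs r = emb cs s * w * emb cs s

/-- `K` is quasiparabolic: it satisfies (QP1) and (QP2). -/
def Quasiparabolic (cs : CoxeterSystem M W) (K : Set (WPlus cs)) : Prop := QP1 cs K ∧ QP2 cs K

lemma refl_conj_left (cs : CoxeterSystem M W) (w : WPlus cs) (r : W) :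
    (emb cs r * w * emb cs r).left = r * w.left * (w.right : MulAut W) r := by
  simp

lemma refl_conj_right (cs : CoxeterSystem M W) (w : WPlus cs) (r : W) :
    (emb cs r * w * emb cs r).right = w.right := by
  simp

/-- Translation to twisted conjugation in `W`. -/
lemma toTw {cs : CoxeterSystem M W} {K : Set (WPlus cs)} (hK : IsInvolutionClass cs K)
    (h1 : ∀ r : W, cs.IsReflection r → ∀ w ∈ K,
      len cs (emb cs r * w * emb cs r) = len cs w → emb cs r * w * emb cs r = w) :
    ∃ (θ : AutS cs) (K' : Set W), TwClass cs (θ : MulAut W) K' ∧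
      ∀ w ∈ K, w.right = θ ∧ w.left ∈ K' := by
  obtain ⟨x₀, hx₀, rfl⟩ := hK
  have hright : x₀.right * x₀.right = 1 := by
    have := congrArg SemidirectProduct.right hx₀
    rw [pow_two] at this
    simpa using this
  have hleft : x₀.left * (x₀.right : MulAut W) x₀.left = 1 := by
    have := congrArg SemidirectProduct.left hx₀
    rw [pow_two] at this
    simpa using this
  have hsq : ∀ w : W, (x₀.right : MulAut W) ((x₀.right : MulAut W) w) = w := by
    intro w
    have h2 : ((x₀.right : MulAut W) * (x₀.right : MulAut W)) w = w := by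
      rw [← Subgroup.coe_mul, hright]
      rfl
    exact h2
  have hel : ∀ u : W, (emb cs u * x₀ * (emb cs u)⁻¹).left =
      u * x₀.left * (x₀.right : MulAut W) u⁻¹ := by
    intro u
    rw [← map_inv]
    simp
  have her : ∀ u : W, (emb cs u * x₀ * (emb cs u)⁻¹).right = x₀.right := by
    intro u
    rw [← map_inv]
    simp
  refine ⟨x₀.right, {x | ∃ u : W, x = u * x₀.left * (x₀.right : MulAut W) u⁻¹}, ?_, ?_⟩
  · refine ⟨x₀.right.2, hsq, ?_, ?_, ?_⟩
    · rintro x ⟨u, rfl⟩
      rw [map_mul, map_mul, hsq]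
      calc u * x₀.left * (x₀.right : MulAut W) u⁻¹ *
          ((x₀.right : MulAut W) u * (x₀.right : MulAut W) x₀.left * u⁻¹)
          = u * x₀.left * ((x₀.right : MulAut W) u⁻¹ * (x₀.right : MulAut W) u) *
            (x₀.right : MulAut W) x₀.left * u⁻¹ := by simp only [mul_assoc]
        _ = u * (x₀.left * (x₀.right : MulAut W) x₀.left) * u⁻¹ := by
            rw [← map_mul, inv_mul_cancel, map_one, mul_one]; simp only [mul_assoc]
        _ = 1 := by rw [hleft, mul_one, mul_inv_cancel]
    · rintro x ⟨u, rfl⟩ g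
      refine ⟨g * u, ?_⟩
      rw [mul_inv_rev, map_mul]
      simp only [mul_assoc]
    · rintro x ⟨u, rfl⟩ r hr hlen
      have h2 := h1 r hr _ ⟨u, rfl⟩ (by
        rw [len, len, refl_conj_left, hel, her]
        exact hlen)
      have h3 := congrArg SemidirectProduct.left h2
      rw [refl_conj_left, hel, her] at h3
      exact h3
  · rintro w ⟨u, rfl⟩
    exact ⟨her u, u, hel u⟩

/-- **Main result.** A `W`-conjugacy class of twisted involutions that satisfies (QP1) also
satisfies (QP2), and hence is quasiparabolic. -/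
theorem result (cs : CoxeterSystem M W) (K : Set (WPlus cs)) (hK : IsInvolutionClass cs K)
    (h1 : QP1 cs K) : Quasiparabolic cs K := by
  have main : QP2 cs K := by
    rintro r hr w hw s ⟨i, rfl⟩ hlen1 hlen2
    obtain ⟨θ, K', hTw, hmem⟩ := toTw hK h1
    obtain ⟨hθ, hwK⟩ := hmem w hw
    have hl : ∀ g : W, (emb cs g * w * emb cs g).left = g * w.left * (θ : MulAut W) g := by
      intro g
      rw [refl_conj_left, hθ]
    have hl2 : (emb cs (cs.simple i) * emb cs r * w * emb cs r * emb cs (cs.simple i)).left =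
        cs.simple i * (r * w.left * (θ : MulAut W) r) * (θ : MulAut W) (cs.simple i) := by
      have e : emb cs (cs.simple i) * emb cs r * w * emb cs r * emb cs (cs.simple i) =
          emb cs (cs.simple i) * (emb cs r * w * emb cs r) * emb cs (cs.simple i) := by
        simp only [mul_assoc]
      rw [e, refl_conj_left, refl_conj_left, refl_conj_right, hθ]
    rw [len, len, hl] at hlen1
    rw [len, len, hl, hl2] at hlen2
    have h3 := qp2 hTw hwK hr i hlen1 hlen2
    apply SemidirectProduct.ext
    · rw [hl, hl, h3]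
    · rw [refl_conj_right, refl_conj_right]
  exact ⟨h1, main⟩

end Pool.Agent.Results.MP_2f4918_al.QPOneImpliesQPTwo
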